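import Mathlib
import Pool.Agent.W_MP_654ec6.B.Clamp

/-!
# The comparison lemma with one big ball and finitely many small balls

`exists_radius`: given intervals `(d j - v j, d j + w j)` of total length `< r0` there is
`r ∈ [r0, 2 r0]` in none of them. `comp2`: the comparison lemma `compare` where the points near
one bad place are mapped into `ball c₀ r0`; a radius `r ∈ [r0, 2 r0]` is chosen such that each
small ball is inside `ball c₀ r` or well separated from it.
-/

open scoped ContDiff Topology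
open Filter MeasureTheory

namespace Pool.Agent.W_MP_654ec6

theorem exists_radius {ι : Type*} [Fintype ι] (d v w : ι → ℝ) (hvw : ∀ j, 0 ≤ v j + w j)
    {r0 : ℝ} (hr : ∑ j, (v j + w j) < r0) :
    ∃ r, r0 ≤ r ∧ r ≤ 2 * r0 ∧ ∀ j, d j + w j ≤ r ∨ r ≤ d j - v j := by
  by_contra hcon
  push Not at hcon
  have hr0 : 0 < r0 := lt_of_le_of_lt (Finset.sum_nonneg fun j _ => hvw j) hr
  have hsub : Set.Icc r0 (2 * r0) ⊆ ⋃ j, Set.Ioo (d j - v j) (d j + w j) := by
    intro r hr'
    obtain ⟨j, h1, h2⟩ := hcon r hr'.1 hr'.2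
    exact Set.mem_iUnion.2 ⟨j, h2, h1⟩
  have h1 : volume (Set.Icc r0 (2 * r0)) ≤ ∑ j, volume (Set.Ioo (d j - v j) (d j + w j)) :=
    (measure_mono hsub).trans (measure_iUnion_fintype_le _ _)
  have h2 : ∑ j, volume (Set.Ioo (d j - v j) (d j + w j)) = ENNReal.ofReal (∑ j, (v j + w j)) := by
    rw [ENNReal.ofReal_sum_of_nonneg fun j _ => hvw j]
    refine Finset.sum_congr rfl fun j _ => ?_
    rw [Real.volume_Ioo]
    congr 1
    ring
  rw [h2, Real.volume_Icc] at h1
  have h3 : ENNReal.ofReal (∑ j, (v j + w j)) < ENNReal.ofReal (2 * r0 - r0) := by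
    rw [ENNReal.ofReal_lt_ofReal_iff (by linarith)]
    linarith
  exact absurd h1 (not_le.2 h3)

/-- The comparison lemma with one big ball `ball c₀ r0` and small balls `ball (c j) (ρ j)`. -/
theorem comp2 {X Y : Type} [MetricSpace X] [MetricSpace Y] (hX : LocLipProp X) (Θ : X → Y)
    (c₀ : Y) {r0 ε₀ : ℝ} (hε₀ : 0 < ε₀) (n : ℕ) (c : Fin n → Y) (ρ ε : Fin n → ℝ)
    (hρ : ∀ j, 0 < ρ j) (hε : ∀ j, 0 < ε j)
    (hsum : ∑ j, ((1 + ε j) * ρ j / ε j + ρ j) < r0)
    (hsep : ∀ i j, i < j → ρ i + (1 + ε j) * ρ j / ε j ≤ dist (c i) (c j)) {K : ℝ} (hK : 0 ≤ K)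
    (h : ∀ p : X, (∀ δ > (0 : ℝ), ∀ᶠ q in 𝓝 (p, p),
        dist (Θ q.1) (Θ q.2) ≤ (K + δ) * dist q.1 q.2) ∨
      (∀ᶠ q in 𝓝 p, dist (Θ q) c₀ < r0) ∨
      ∃ j, ∀ᶠ q in 𝓝 p, dist (Θ q) (c j) < ρ j) (p q : X) :
    dist (Θ p) (Θ q) ≤ K * ((1 + ε₀) * ∏ j, (1 + ε j)) * dist p q +
      2 * ((1 + ε₀) * ∏ j, (1 + ε j)) * (2 * r0 + ∑ j, ρ j) := by
  classical
  obtain ⟨r, hr1, hr2, hr⟩ := exists_radius (fun j => dist (c j) c₀)
    (fun j => (1 + ε j) * ρ j / ε j) ρ (fun j => by
      have := hρ j; have := hε j; positivity) hsum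
  have hr0 : 0 < r0 := lt_of_le_of_lt (Finset.sum_nonneg fun j _ => by
      have := hρ j; have := hε j; positivity) hsum
  set J : Finset (Fin n) := Finset.univ.filter fun j => r ≤ dist (c j) c₀ - (1 + ε j) * ρ j / ε j
    with hJ
  have hJm : ∀ j, j ∈ J ↔ r ≤ dist (c j) c₀ - (1 + ε j) * ρ j / ε j := by
    intro j; simp [hJ]
  set e : Fin J.card ↪o Fin n := J.orderEmbOfFin rfl with he
  have heJ : ∀ i, e i ∈ J := fun i => J.orderEmbOfFin_mem rfl i
  have hsurj : ∀ j ∈ J, ∃ i, e i = j := by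
    intro j hj
    have h1 := J.range_orderEmbOfFin rfl
    have h2 : j ∈ Set.range (J.orderEmbOfFin rfl) := by rw [h1]; exact hj
    exact h2
  have key := compare hX Θ (J.card + 1) (Fin.cons c₀ fun i => c (e i))
    (Fin.cons r fun i => ρ (e i)) (Fin.cons ε₀ fun i => ε (e i)) (by
      intro j
      refine Fin.cases ?_ (fun i => ?_) j
      · simpa using hr0.trans_le hr1
      · simpa using hρ (e i)) (by
      intro j
      refine Fin.cases ?_ (fun i => ?_) j
      · simpa using hε₀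
      · simpa using hε (e i)) (by
      intro i j
      refine Fin.cases ?_ (fun i => ?_) i
      · refine Fin.cases (fun hij => absurd hij (lt_irrefl _)) (fun j => ?_) j
        intro _
        simp only [Fin.cons_zero, Fin.cons_succ]
        have h1 := (hJm _).1 (heJ j)
        rw [dist_comm c₀ (c (e j))]
        linarith
      · refine Fin.cases (fun hij => absurd hij (Fin.not_lt_zero _)) (fun j => ?_) j
        intro hij
        simp only [Fin.cons_succ]
        exact hsep _ _ (e.lt_iff_lt.2 (by simpa using hij))) hK (by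
      intro p
      rcases h p with h1 | h1 | ⟨j, h1⟩
      · exact Or.inl h1
      · refine Or.inr ⟨0, ?_⟩
        filter_upwards [h1] with q hq
        simpa using hq.trans_le hr1
      · by_cases hj : j ∈ J
        · obtain ⟨i, rfl⟩ := hsurj j hj
          refine Or.inr ⟨i.succ, ?_⟩
          filter_upwards [h1] with q hq
          simpa using hq
        · have h2 : dist (c j) c₀ + ρ j ≤ r := by
            rcases hr j with h3 | h3
            · exact h3
            · exact absurd ((hJm j).2 h3) hj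
          refine Or.inr ⟨0, ?_⟩
          filter_upwards [h1] with q hq
          have h3 := dist_triangle (Θ q) (c j) c₀
          simp only [Fin.cons_zero]
          linarith) p q
  simp only [Fin.prod_univ_succ, Fin.sum_univ_succ, Fin.cons_zero, Fin.cons_succ] at key
  have hprod : ∏ i, (1 + ε (e i)) = ∏ j ∈ J, (1 + ε j) := by
    have h1 : J = Finset.univ.map e.toEmbedding := by
      ext j
      constructor
      · intro hj
        obtain ⟨i, hi⟩ := hsurj j hj
        exact Finset.mem_map.2 ⟨i, Finset.mem_univ _, hi⟩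
      · intro hj
        obtain ⟨i, _, hi⟩ := Finset.mem_map.1 hj
        rw [← hi]
        exact heJ i
    conv_rhs => rw [h1]
    rw [Finset.prod_map]
    rfl
  have hsumJ : ∑ i, ρ (e i) = ∑ j ∈ J, ρ j := by
    have h1 : J = Finset.univ.map e.toEmbedding := by
      ext j
      constructor
      · intro hj
        obtain ⟨i, hi⟩ := hsurj j hj
        exact Finset.mem_map.2 ⟨i, Finset.mem_univ _, hi⟩
      · intro hj
        obtain ⟨i, _, hi⟩ := Finset.mem_map.1 hj
        rw [← hi]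
        exact heJ i
    conv_rhs => rw [h1]
    rw [Finset.sum_map]
    rfl
  have hP1 : ∏ j ∈ J, (1 + ε j) ≤ ∏ j, (1 + ε j) :=
    Finset.prod_le_prod_of_subset_of_one_le (Finset.subset_univ _)
      (fun j _ => by linarith [hε j]) (fun j _ _ => by linarith [hε j])
  have hP0 : 0 ≤ ∏ j ∈ J, (1 + ε j) := Finset.prod_nonneg fun j _ => by linarith [hε j]
  have hS1 : ∑ j ∈ J, ρ j ≤ ∑ j, ρ j :=
    Finset.sum_le_sum_of_subset_of_nonneg (Finset.subset_univ _) fun j _ _ => (hρ j).le
  have hS0 : 0 ≤ ∑ j ∈ J, ρ j := Finset.sum_nonneg fun j _ => (hρ j).le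
  rw [hprod, hsumJ] at key
  have h1 : (1 + ε₀) * ∏ j ∈ J, (1 + ε j) ≤ (1 + ε₀) * ∏ j, (1 + ε j) :=
    mul_le_mul_of_nonneg_left hP1 (by linarith)
  have h0 : 0 ≤ (1 + ε₀) * ∏ j ∈ J, (1 + ε j) := mul_nonneg (by linarith) hP0
  refine key.trans (add_le_add ?_ ?_)
  · exact mul_le_mul_of_nonneg_right (mul_le_mul_of_nonneg_left h1 hK) dist_nonneg
  · refine mul_le_mul ?_ (by linarith) (by linarith) (by linarith)
    linarith

end Pool.Agent.W_MP_654ec6
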